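import Mathlib
import Pool.Agent.Y855.A19

set_option autoImplicit false

/-! # Artin's density with correction factor in the cosets of finitely generated groups

Let `T x z` be the set of the primes `p ≤ x` such that `p - 1` has no odd prime factor `≤ z`.  In such a
set the expected relative density of the primes with the primitive root `n = D k²`, `D ≡ 1 mod 4`
squarefree, is `δ D = (1 - μ(|D|) ∏_{q ∣ D} 1 / (q - 2)) / 2`.

Let `a_1, …, a_r` be multiplicatively independent integers and `b ≠ 0` an integer, all of absolute value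
at most `(log x) ^ B`, where `r` is fixed.  The elements `b a_1^(v_1) ⋯ a_r^(v_r)` of the coset of `b`
with `v ∈ V` are considered, where the set `V` of exponent vectors is thin: it has at most `h` elements
on every affine hyperplane modulo every prime `l > z`.  For instance the points `(t, t², …, t^r)` of a
curve, `0 ≤ t ≤ z`, are thin with `h = r`, and the box `0 ≤ v_i < N`, `N ≤ z`, is thin with
`h = N ^ (r - 1)`.

For `ε > 0` there is `K` such that for large `x` and every `z` with `x ^ (2 / r) ≤ z ≤ x ^ (1 / K)` the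
relative density in `T x z` of the primes with primitive root `n = b a_1^(v_1) ⋯ a_r^(v_r)` is `δ D` up
to an error `ε` for all `v ∈ V` with `n = D k²`, `D ≡ 1 mod 4`, with at most `K h log x / log z`
exceptions.  The bases `n` are not bounded in terms of `x` and may all have the same squarefree part. -/

namespace Pool.Agent.Results.MP_991e92_nt.CosetsOfGroups

open Finset Classical

/-- the primes `p ≤ x` such that every odd prime factor of `p - 1` exceeds `z` -/
noncomputable def T (x z : ℕ) : Finset ℕ :=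
  (Finset.range (x + 1)).filter (fun p : ℕ => p.Prime ∧ ∀ q : ℕ, q.Prime → q ∣ p - 1 → q = 2 ∨ z < q)

/-- the number of the primes `p ∈ T x z` for which `n` is a primitive root modulo `p` -/
noncomputable def P (n : ℤ) (x z : ℕ) : ℕ :=
  ((T x z).filter (fun p : ℕ => orderOf (n : ZMod p) = p - 1)).card

/-- the expected relative density for the integers with squarefree part `D` -/
noncomputable def δ (D : ℤ) : ℝ :=
  1 / 2 * (1 - ((ArithmeticFunction.moebius D.natAbs : ℤ) : ℝ) *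
    ∏ q ∈ D.natAbs.primeFactors, (1 / ((q : ℝ) - 2)))

/-- multiplicative independence -/
def Independent {r : ℕ} (a : Fin r → ℤ) : Prop :=
  ∀ c : Fin r → ℤ, ∏ i, (a i : ℚ) ^ (c i) = 1 → ∀ i, c i = 0

/-- the element `b ∏ a_i ^ v_i` of the coset of `b` -/
def elt {r : ℕ} (a : Fin r → ℤ) (b : ℤ) (v : Fin r → ℕ) : ℤ := b * ∏ i, a i ^ v i

/-- every affine hyperplane modulo every prime `l > z` contains at most `h` elements of `V` -/
def Thin {r : ℕ} (V : Finset (Fin r → ℕ)) (z h : ℕ) : Prop :=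
  ∀ l : ℕ, l.Prime → z < l → ∀ u : Fin r → ZMod l, u ≠ 0 → ∀ c : ZMod l,
    (V.filter (fun v => ∑ i, u i * (v i : ZMod l) = c)).card ≤ h

/-- the points `(t, t², …, t^r)`, `0 ≤ t < N` -/
def curve (r N : ℕ) : Finset (Fin r → ℕ) :=
  (Finset.range N).image (fun t i => t ^ ((i : ℕ) + 1))

/-- the vectors with entries `< N` -/
def box (r N : ℕ) : Finset (Fin r → ℕ) := Fintype.piFinset (fun _ => Finset.range N)

theorem T_eq (x z : ℕ) : T x z = Pool.Agent.Y855.TT x z := by
  unfold T Pool.Agent.Y855.TT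
  ext p
  rw [mem_filter, mem_filter, mem_range, mem_Icc]
  constructor
  · rintro ⟨h1, h2, h3⟩
    refine ⟨⟨h2.pos, by omega⟩, h2, fun q hq hqp => ?_⟩
    rw [Pool.Agent.Y855.mem_OP] at hq
    rcases h3 q hq.1 hqp with h | h <;> omega
  · rintro ⟨h1, h2, h3⟩
    refine ⟨by omega, h2, fun q hq hqp => ?_⟩
    by_contra hcon
    push Not at hcon
    refine h3 q (Pool.Agent.Y855.mem_OP.2 ⟨hq, ?_, hcon.2⟩) hqp
    have := hq.two_le
    omega

theorem result :
    (∀ ε : ℝ, 0 < ε → ∃ K : ℝ, 1 ≤ K ∧ ∀ r : ℕ, 2 ≤ r → ∀ B : ℕ, ∃ x₀ : ℕ, ∀ x : ℕ, x₀ ≤ x →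
      ∀ z : ℕ, (z : ℝ) ^ K ≤ x → x ^ 2 ≤ z ^ r →
      (x : ℝ) / (K * (Real.log x * Real.log z)) ≤ (T x z).card ∧
      ∀ (a : Fin r → ℤ) (b : ℤ), Independent a → (∀ i, a i ≠ 0 ∧ |(a i : ℝ)| ≤ (Real.log x) ^ B) →
        b ≠ 0 → |(b : ℝ)| ≤ (Real.log x) ^ B →
        ∀ (V : Finset (Fin r → ℕ)) (h : ℕ), Thin V z h → V.card ^ (2 * r) ≤ x →
        ∃ E ⊆ V, (E.card : ℝ) ≤ K * (h * (Real.log x / Real.log z)) ∧
          ∀ v ∈ V \ E, ∀ D k : ℤ, Squarefree D → D % 4 = 1 → elt a b v = D * k ^ 2 →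
            |(P (elt a b v) x z : ℝ) - δ D * (T x z).card| ≤ ε * (T x z).card) ∧
    (∀ r N z : ℕ, N ≤ z + 1 → Thin (curve r N) z r ∧ Thin (box r N) z (N ^ (r - 1))) := by
  refine ⟨fun ε hε => ?_, fun r N z hN => ⟨Pool.Agent.Y855.HypC_curve r N z hN,
    Pool.Agent.Y855.HypC_box r N z hN⟩⟩
  obtain ⟨K, hK, H⟩ := Pool.Agent.Y855.cosetA ε hε
  refine ⟨K, hK, fun r hr B => ?_⟩
  obtain ⟨x₀, H⟩ := H r hr B
  refine ⟨x₀, fun x hx z h1 h2 => ?_⟩
  obtain ⟨H1, H2⟩ := H x hx z h1 h2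
  have hP : ∀ n : ℤ, P n x z = (Pool.Agent.Y855.PR n x z).card := by
    intro n
    unfold P Pool.Agent.Y855.PR
    rw [T_eq]
  rw [T_eq]
  refine ⟨H1, fun a b hI ha hb hbB V h hV hVx => ?_⟩
  obtain ⟨E, hE, hE1, hE2⟩ := H2 a b ha hI hb hbB V h hV hVx
  refine ⟨E, hE, hE1, fun v hv D k hD hD4 hn => ?_⟩
  rw [hP]
  exact hE2 v hv D k hD hD4 hn

end Pool.Agent.Results.MP_991e92_nt.CosetsOfGroups
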