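import Pool.Agent.Y855.B14

set_option autoImplicit false

namespace Pool.Agent.Results.MP_991e92_nt.NarrowProgressions

open Finset

/-- For every `k` there is `D` such that there are infinitely many arithmetic progressions
`a, a + d, ..., a + (k - 1) d` of primes, with common difference `d ≤ (log a) ^ D`, such that all the
elements of `F` are primitive roots modulo all the `k` primes. -/
def Prog (F : Finset ℤ) : Prop :=
  ∀ k : ℕ, ∃ D : ℕ, ∀ A : ℕ, ∃ a d : ℕ, A ≤ a ∧ 0 < d ∧ (d : ℝ) ≤ Real.log a ^ D ∧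
    ∀ j < k, (a + j * d).Prime ∧ ∀ n ∈ F, orderOf ((n : ℤ) : ZMod (a + j * d)) = a + j * d - 1

/-- There is an absolute constant `C` such that for every collection of pairwise disjoint finite sets `F` of
integers, all the integers being pairwise coprime, none a perfect square and none `-1`, all but at most `C` of
the sets `F` have the property `Prog`. -/
theorem result : ∃ C : ℕ, ∀ S : Set (Finset ℤ), (∀ F ∈ S, ∀ n ∈ F, n ≠ -1 ∧ ¬ IsSquare n) →
    (∀ F ∈ S, ∀ F' ∈ S, ∀ n ∈ F, ∀ n' ∈ F', F ≠ F' ∨ n ≠ n' → IsCoprime n n') →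
    {F ∈ S | ¬ Prog F}.encard ≤ C := by
  classical
  obtain ⟨C, hC⟩ := Pool.Agent.Y855.thmAP
  refine ⟨C + 2, fun S hS hcop => ?_⟩
  by_contra hcon
  push Not at hcon
  obtain ⟨V, hVS, hV⟩ := Set.exists_subset_encard_eq (Order.add_one_le_of_lt hcon)
  have hVfin : V.Finite := Set.finite_of_encard_eq_coe (k := C + 2 + 1) (by rw [hV]; push_cast; rfl)
  obtain ⟨T, rfl⟩ := hVfin.exists_finset_coe
  rw [Set.encard_coe_eq_coe_finsetCard] at hV
  have hTc : T.card = C + 2 + 1 := by exact_mod_cast hV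
  have hTS : ∀ F ∈ T, F ∈ S ∧ ¬ Prog F := fun F hF => hVS hF
  have hone : ∀ q : ℤ, ¬ IsUnit q → (T.filter (fun F => ∃ n ∈ F, q ∣ n)).card ≤ 1 := by
    intro q hq
    rw [card_le_one]
    intro F hF F' hF'
    rw [mem_filter] at hF hF'
    obtain ⟨hFT, n, hn, hqn⟩ := hF
    obtain ⟨hFT', n', hn', hqn'⟩ := hF'
    by_contra hne
    exact hq ((hcop F (hTS F hFT).1 F' (hTS F' hFT').1 n hn n' hn' (Or.inl hne)).isUnit_of_dvd' hqn hqn')
  have h2 := hone 2 (by rw [Int.isUnit_iff]; norm_num)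
  have h3 := hone 3 (by rw [Int.isUnit_iff]; norm_num)
  obtain ⟨T', hT'⟩ : ∃ T', T' = T.filter (fun F => ∀ n ∈ F, ¬ (2:ℤ) ∣ n ∧ ¬ (3:ℤ) ∣ n) := ⟨_, rfl⟩
  have hT'S : ∀ F ∈ T', F ∈ S ∧ ¬ Prog F := fun F hF => hTS F (by rw [hT'] at hF; exact (mem_filter.1 hF).1)
  have hcov : T ⊆ T' ∪ (T.filter (fun F => ∃ n ∈ F, (2:ℤ) ∣ n) ∪ T.filter (fun F => ∃ n ∈ F, (3:ℤ) ∣ n)) := by
    intro F hF
    simp only [hT', mem_union, mem_filter]
    by_cases c2 : ∃ n ∈ F, (2:ℤ) ∣ n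
    · exact Or.inr (Or.inl ⟨hF, c2⟩)
    by_cases c3 : ∃ n ∈ F, (3:ℤ) ∣ n
    · exact Or.inr (Or.inr ⟨hF, c3⟩)
    push Not at c2 c3
    exact Or.inl ⟨hF, fun n hn => ⟨c2 n hn, c3 n hn⟩⟩
  have h4 := (card_le_card hcov).trans ((card_union_le _ _).trans
    (Nat.add_le_add_left (card_union_le _ _) _))
  -- the failing lengths
  have hfail : ∀ F : Finset ℤ, ∃ (k : ℕ) (A : ℕ → ℕ), F ∈ T' → ∀ D a d : ℕ, A D ≤ a → 0 < d →
      (d : ℝ) ≤ Real.log a ^ D → ¬ ∀ j < k, (a + j * d).Prime ∧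
        ∀ n ∈ F, orderOf ((n : ℤ) : ZMod (a + j * d)) = a + j * d - 1 := by
    intro F
    by_cases hF : F ∈ T'
    · have h5 := (hT'S F hF).2
      unfold Prog at h5
      push Not at h5
      obtain ⟨k, h6⟩ := h5
      choose A h7 using h6
      refine ⟨k, A, fun _ D a d h8 h9 h10 h11 => ?_⟩
      obtain ⟨j, hj, h12⟩ := h7 D a d h8 h9 h10
      obtain ⟨n, hn, h13⟩ := h12 (h11 j hj).1
      exact h13 ((h11 j hj).2 n hn)
    · exact ⟨0, fun _ => 0, fun h => absurd h hF⟩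
  choose kk AA hkA using hfail
  obtain ⟨k, hk⟩ : ∃ k, k = T'.sup kk + 2 := ⟨_, rfl⟩
  obtain ⟨D, hD⟩ := hC k (by omega)
  have hu : ∀ n : ℤ, n ≠ -1 → ¬ IsSquare n → 2 ≤ n.natAbs := by
    intro n hn1 hsq
    by_contra hlt
    have h5 : n = 0 ∨ n = 1 := by omega
    rcases h5 with h5 | h5
    · exact hsq ⟨0, by rw [h5]; norm_num⟩
    · exact hsq ⟨1, by rw [h5]; norm_num⟩
  obtain ⟨F, hF, a, d, hAa, hd0, hdD, had⟩ := hD T' (by omega)
    (by
      intro F hF n hn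
      have h5 := hS F (hT'S F hF).1 n hn
      rw [hT', mem_filter] at hF
      exact ⟨hu n h5.1 h5.2, (hF.2 n hn).1, (hF.2 n hn).2, h5.2⟩)
    (by
      intro F hF F' hF' hne
      rw [Finset.disjoint_left]
      intro n hn hn'
      have h5 := hcop F (hT'S F hF).1 F' (hT'S F' hF').1 n hn n hn' (Or.inl hne)
      have h6 := hS F (hT'S F hF).1 n hn
      have h7 := hu n h6.1 h6.2
      have h8 := Int.isUnit_iff_natAbs_eq.1 (h5.isUnit_of_dvd' dvd_rfl dvd_rfl)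
      omega)
    (by
      intro n hn n' hn' hne
      rw [mem_biUnion] at hn hn'
      obtain ⟨F, hF, hn⟩ := hn
      obtain ⟨F', hF', hn'⟩ := hn'
      exact hcop F (hT'S F hF).1 F' (hT'S F' hF').1 n hn n' hn' (Or.inr hne))
    (T'.sup (fun F => AA F D))
  refine hkA F hF D a d ?_ hd0 hdD fun j hj => had j ?_
  · exact (Finset.le_sup (f := fun F => AA F D) hF).trans hAa
  · have h5 : kk F ≤ T'.sup kk := Finset.le_sup hF
    omega

end Pool.Agent.Results.MP_991e92_nt.NarrowProgressions
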