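import Pool.Agent.Y848.MS.ThmA

set_option autoImplicit false

namespace Pool.Agent.Results.MP_991e92_nt.SameRootStrings

open Finset

/-- For some `H` there are infinitely many intervals `(N, N + H]` which contain at least `m` primes and in
which every prime `p` has `n` as a primitive root. -/
def Strings (m : ℕ) (n : ℤ) : Prop :=
  ∃ H : ℕ, ∀ N₀ : ℕ, ∃ N : ℕ, N₀ ≤ N ∧ m ≤ #{p ∈ Ioc N (N + H) | p.Prime} ∧
    ∀ p ∈ Ioc N (N + H), p.Prime → orderOf ((n : ℤ) : ZMod p) = p - 1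

/-- For every `m` there is `C` such that in every set of pairwise coprime integers, none of them a perfect
square, all but at most `C` elements `n` are a primitive root of all the primes of infinitely many strings of
`m` consecutive primes, in intervals of bounded length. -/
theorem result (m : ℕ) : ∃ C : ℕ, ∀ S : Set ℤ, (∀ n ∈ S, ¬ IsSquare n) → S.Pairwise IsCoprime →
    {n ∈ S | ¬ Strings m n}.encard ≤ C := by
  classical
  obtain ⟨C, hC⟩ := Pool.Agent.Y848.MS.thmA_core m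
  refine ⟨C + 3, fun S hS hcop => ?_⟩
  by_contra hcon
  push Not at hcon
  obtain ⟨U, hUS, hU⟩ := Set.exists_subset_encard_eq (Order.add_one_le_of_lt hcon)
  have hUfin : U.Finite := Set.finite_of_encard_eq_coe (k := C + 3 + 1) (by rw [hU]; push_cast; rfl)
  obtain ⟨T, rfl⟩ := hUfin.exists_finset_coe
  rw [Set.encard_coe_eq_coe_finsetCard] at hU
  have hTc : #T = C + 3 + 1 := by exact_mod_cast hU
  have hTS : ∀ n ∈ T, n ∈ S ∧ ¬ Strings m n := fun n hn => hUS hn
  have hTcop : ∀ n ∈ T, ∀ n' ∈ T, n ≠ n' → IsCoprime n n' := fun n hn n' hn' h =>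
    hcop (hTS n hn).1 (hTS n' hn').1 h
  have hone : ∀ q : ℤ, ¬ IsUnit q → #(T.filter (fun n => q ∣ n)) ≤ 1 := by
    intro q hq
    rw [card_le_one]
    intro a ha b hb
    rw [mem_filter] at ha hb
    by_contra hab
    exact hq ((hTcop a ha.1 b hb.1 hab).isUnit_of_dvd' ha.2 hb.2)
  have h2 := hone 2 (by rw [Int.isUnit_iff]; norm_num)
  have h3 := hone 3 (by rw [Int.isUnit_iff]; norm_num)
  have h1 : #(T.filter (fun n => n = -1)) ≤ 1 := by
    rw [card_le_one]
    intro a ha b hb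
    rw [mem_filter] at ha hb
    rw [ha.2, hb.2]
  have hcov : T ⊆ (T.filter (fun n => 2 ≤ n.natAbs ∧ ¬ (2:ℤ) ∣ n ∧ ¬ (3:ℤ) ∣ n)) ∪
      (T.filter (fun n => n = -1) ∪ (T.filter (fun n => (2:ℤ) ∣ n) ∪ T.filter (fun n => (3:ℤ) ∣ n))) := by
    intro n hn
    have hsq := hS n (hTS n hn).1
    simp only [mem_union, mem_filter]
    by_cases c1 : n = -1
    · exact Or.inr (Or.inl ⟨hn, c1⟩)
    by_cases c2 : (2:ℤ) ∣ n
    · exact Or.inr (Or.inr (Or.inl ⟨hn, c2⟩))
    by_cases c3 : (3:ℤ) ∣ n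
    · exact Or.inr (Or.inr (Or.inr ⟨hn, c3⟩))
    refine Or.inl ⟨hn, ?_, c2, c3⟩
    by_contra hlt
    have h4 : n = 0 ∨ n = 1 := by omega
    rcases h4 with h4 | h4
    · exact hsq ⟨0, by rw [h4]; norm_num⟩
    · exact hsq ⟨1, by rw [h4]; norm_num⟩
  have h4 := (card_le_card hcov).trans ((card_union_le _ _).trans
    (Nat.add_le_add_left ((card_union_le _ _).trans (Nat.add_le_add_left (card_union_le _ _) _)) _))
  obtain ⟨b, hb, hbS⟩ := hC (T.filter (fun n => 2 ≤ n.natAbs ∧ ¬ (2:ℤ) ∣ n ∧ ¬ (3:ℤ) ∣ n))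
    (by
      intro n hn
      rw [mem_filter] at hn
      exact ⟨hn.2.1, hn.2.2.1, hn.2.2.2, hS n (hTS n hn.1).1⟩)
    (by
      intro n hn n' hn' h
      exact hTcop n (mem_filter.1 hn).1 n' (mem_filter.1 hn').1 h)
    (by omega)
  exact (hTS b (mem_filter.1 hb).1).2 hbS

end Pool.Agent.Results.MP_991e92_nt.SameRootStrings
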