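import Mathlib
import Pool.Agent.Y855.A13

set_option autoImplicit false

/-! # Artin's density with correction factor in sifted sets of primes, for all but boundedly many bases

Let `T x z` be the set of the primes `p ≤ x` such that `p - 1` has no odd prime factor `≤ z`.  In such a
set the expected relative density of the primes with the primitive root `n = D k²`, `D ≡ 1 mod 4`
squarefree, is `δ D = (1 - μ(|D|) ∏_{q ∣ D} 1 / (q - 2)) / 2`.

For all `B` and `ε > 0` there is `K` such that for all large `x` and all `z` with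
`exp (√(K log x log log x)) ≤ z ≤ x ^ (1 / K)` the following holds.  The set `T x z` has at least
`x / (K log x log z)` elements, and if `M` is ANY multiplicatively independent set of integers
`n`, `|n| ≤ (log x) ^ B`, then the relative density in `T x z` of the primes with primitive root `n` is
`δ D` up to an error `ε`, for all `n = D k ² ∈ M` with `D ≡ 1 mod 4`, with at most `K log x / log z`
exceptions.

So for `z = x ^ (1 / K)` the number of exceptions is bounded, and for the smallest possible `z` each of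
the other `n ∈ M` with `δ D ≥ ε` is a primitive root for more than a constant times
`x (log x) ^ (-3 / 2) (log log x) ^ (-1 / 2)` primes `p ≤ x`. -/

namespace Pool.Agent.Results.MP_991e92_nt.SiftedPrimes

open Finset Classical

/-- the primes `p ≤ x` such that every odd prime factor of `p - 1` exceeds `z` -/
noncomputable def T (x z : ℕ) : Finset ℕ :=
  (Finset.range (x + 1)).filter (fun p : ℕ => p.Prime ∧ ∀ q : ℕ, q.Prime → q ∣ p - 1 → q = 2 ∨ z < q)

/-- the number of the primes `p ∈ T x z` for which `n` is a primitive root modulo `p` -/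
noncomputable def P (n : ℤ) (x z : ℕ) : ℕ :=
  ((T x z).filter (fun p : ℕ => orderOf (n : ZMod p) = p - 1)).card

/-- the expected relative density for the integers with squarefree part `D` -/
noncomputable def δ (D : ℤ) : ℝ :=
  1 / 2 * (1 - ((ArithmeticFunction.moebius D.natAbs : ℤ) : ℝ) *
    ∏ q ∈ D.natAbs.primeFactors, (1 / ((q : ℝ) - 2)))

/-- multiplicative independence -/
def Independent (M : Finset ℤ) : Prop :=
  ∀ c : ℤ → ℤ, ∏ n ∈ M, (n : ℚ) ^ (c n) = 1 → ∀ n ∈ M, c n = 0

theorem T_eq (x z : ℕ) : T x z = Pool.Agent.Y855.TT x z := by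
  unfold T Pool.Agent.Y855.TT
  ext p
  rw [mem_filter, mem_filter, mem_range, mem_Icc]
  constructor
  · rintro ⟨h1, h2, h3⟩
    refine ⟨⟨h2.pos, by omega⟩, h2, fun q hq hqp => ?_⟩
    rw [Pool.Agent.Y855.mem_OP] at hq
    rcases h3 q hq.1 hqp with h | h <;> omega
  · rintro ⟨h1, h2, h3⟩
    refine ⟨by omega, h2, fun q hq hqp => ?_⟩
    by_contra hcon
    push Not at hcon
    refine h3 q (Pool.Agent.Y855.mem_OP.2 ⟨hq, ?_, hcon.2⟩) hqp
    have := hq.two_le
    omega

theorem result (B : ℕ) (ε : ℝ) (hε : 0 < ε) :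
    ∃ K : ℝ, 1 ≤ K ∧ ∃ x₀ : ℕ, ∀ x : ℕ, x₀ ≤ x →
      ∀ z : ℕ, K * (Real.log x * Real.log (Real.log x)) ≤ (Real.log z) ^ 2 → (z : ℝ) ^ K ≤ x →
      (x : ℝ) / (K * (Real.log x * Real.log z)) ≤ (T x z).card ∧
      ∀ M : Finset ℤ, Independent M → (∀ n ∈ M, n ≠ 0 ∧ |(n : ℝ)| ≤ (Real.log x) ^ B) →
        ∃ E ⊆ M, (E.card : ℝ) ≤ K * (Real.log x / Real.log z) ∧
          ∀ n ∈ M \ E, ∀ D k : ℤ, Squarefree D → D % 4 = 1 → n = D * k ^ 2 →
            |(P n x z : ℝ) - δ D * (T x z).card| ≤ ε * (T x z).card := by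
  obtain ⟨K, hK, x₀, h⟩ := Pool.Agent.Y855.main B ε hε
  refine ⟨K, hK, x₀, fun x hx z h1 h2 => ?_⟩
  have hP : ∀ n : ℤ, P n x z = (Pool.Agent.Y855.PR n x z).card := by
    intro n
    unfold P Pool.Agent.Y855.PR
    rw [T_eq]
  rw [T_eq]
  refine ⟨(h x hx z h1 h2 ∅ (by simp) (fun c _ n hn => by simp at hn)).1, fun M hM hM0 => ?_⟩
  obtain ⟨-, E, hE, hE1, hE2⟩ := h x hx z h1 h2 M hM0 hM
  refine ⟨E, hE, hE1, fun n hn D k hD hD4 hnD => ?_⟩
  rw [hP]
  exact hE2 n hn D k hD hD4 hnD

end Pool.Agent.Results.MP_991e92_nt.SiftedPrimes
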